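import Pool.Agent.H70.UN.Targets2

/-!
# MP_c62aed_lc, unified core: row SUMF, the sum over the blocks
-/

set_option autoImplicit false

namespace Pool.Agent.H34.UN

open Finset H43.PS Pool.Agent.H70.UN

lemma av_nn {Z : Type} [Fintype Z] (f : Z → ℝ) (h : ∀ z, 0 ≤ f z) : 0 ≤ av f := by
  unfold av
  exact mul_nonneg (by positivity) (sum_nonneg fun z _ => h z)

lemma av_sqrt_mul {Z : Type} [Fintype Z] (f g : Z → ℝ) (hf : ∀ z, 0 ≤ f z)
    (hg : ∀ z, 0 ≤ g z) :
    av (fun z => Real.sqrt (f z) * Real.sqrt (g z)) ≤ Real.sqrt (av f) * Real.sqrt (av g) := by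
  unfold av
  have hc : 0 ≤ ((Fintype.card Z : ℝ))⁻¹ := by positivity
  have h1 := Real.sum_sqrt_mul_sqrt_le (univ : Finset Z) hf hg
  rw [Real.sqrt_mul hc, Real.sqrt_mul hc]
  refine (mul_le_mul_of_nonneg_left h1 hc).trans (le_of_eq ?_)
  have h2 := Real.mul_self_sqrt hc
  generalize Real.sqrt (∑ i, f i) = F
  generalize Real.sqrt (∑ i, g i) = G
  linear_combination -(F * G) * h2

lemma av_one {Z : Type} [Fintype Z] [Nonempty Z] : av (fun _ : Z => (1 : ℝ)) = 1 := by
  unfold av
  have h : (Fintype.card Z : ℝ) ≠ 0 := by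
    exact_mod_cast (Fintype.card_pos (α := Z)).ne'
  rw [sum_const, card_univ, nsmul_eq_mul, mul_one, inv_mul_cancel₀ h]

lemma av_sqrt {Z : Type} [Fintype Z] [Nonempty Z] (f : Z → ℝ) (hf : ∀ z, 0 ≤ f z) :
    av (fun z => Real.sqrt (f z)) ≤ Real.sqrt (av f) := by
  have h := av_sqrt_mul f (fun _ => 1) hf (fun _ => zero_le_one)
  rw [av_one, Real.sqrt_one, mul_one] at h
  simpa using h

lemma av_mul_left {Z : Type} [Fintype Z] (c : ℝ) (f : Z → ℝ) :
    av (fun z => c * f z) = c * av f := by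
  unfold av
  rw [← mul_sum]
  ring

lemma av_add3 {Z : Type} [Fintype Z] (f g h : Z → ℝ) :
    av (fun z => f z + g z + h z) = av f + av g + av h := by
  unfold av
  rw [sum_add_distrib, sum_add_distrib]
  ring

end Pool.Agent.H34.UN

namespace Pool.Agent.H70.UN

open Finset H43.PS Pool.Agent.H34.UN

theorem pf_SUMF : T_SUMF := by
  intro I Z _ _ I' y r κ c e0 al R hy hr hκ hc he0 hal hR hY hK
  let x : I → Z → ℝ := fun i z => c * (r i * Real.sqrt (κ i * y i z))
  have hx : ∀ i z, 0 ≤ x i z := fun i z =>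
    mul_nonneg hc (mul_nonneg (hr i) (Real.sqrt_nonneg _))
  have hYn : ∀ i, 0 ≤ av (y i) := fun i => av_nn _ (hy i)
  have hXn : ∀ i, 0 ≤ av (x i) := fun i => av_nn _ (hx i)
  -- the last term
  have h2i : ∀ i, av (x i) ≤ c * (Real.sqrt (r i ^ 2 * κ i) * Real.sqrt (av (y i))) := by
    intro i
    have e1 : av (x i) = c * (r i * av (fun z => Real.sqrt (κ i * y i z))) := by
      show av (fun z => c * (r i * Real.sqrt (κ i * y i z))) = _
      rw [av_mul_left, av_mul_left]
    have e2 : av (fun z => Real.sqrt (κ i * y i z)) ≤ Real.sqrt (κ i * av (y i)) := by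
      refine (av_sqrt _ fun z => mul_nonneg (hκ i) (hy i z)).trans (le_of_eq ?_)
      rw [av_mul_left]
    rw [e1]
    refine mul_le_mul_of_nonneg_left ?_ hc
    refine (mul_le_mul_of_nonneg_left e2 (hr i)).trans (le_of_eq ?_)
    rw [Real.sqrt_mul (hκ i), Real.sqrt_mul (sq_nonneg _), Real.sqrt_sq (hr i), mul_assoc]
  have h2 : ∑ i ∈ I', av (x i) ≤ c * (al * Real.sqrt R) := by
    refine (sum_le_sum fun i _ => h2i i).trans ?_
    rw [← mul_sum]
    refine mul_le_mul_of_nonneg_left ?_ hc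
    refine (Real.sum_sqrt_mul_sqrt_le I' (fun i => mul_nonneg (sq_nonneg _) (hκ i)) hYn).trans ?_
    refine (mul_le_mul (Real.sqrt_le_sqrt hK) (Real.sqrt_le_sqrt hY) (Real.sqrt_nonneg _)
      (Real.sqrt_nonneg _)).trans (le_of_eq ?_)
    rw [Real.sqrt_mul hal]
    have := Real.mul_self_sqrt hal
    linear_combination Real.sqrt R * this
  -- the middle term
  have h3i : ∀ i, av (fun z => Real.sqrt (y i z * x i z)) ≤
      Real.sqrt (av (y i)) * Real.sqrt (av (x i)) := by
    intro i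
    refine le_trans (le_of_eq ?_) (av_sqrt_mul (y i) (x i) (hy i) (hx i))
    congr 1
    funext z
    exact Real.sqrt_mul (hy i z) _
  have h3 : ∑ i ∈ I', av (fun z => Real.sqrt (y i z * x i z)) ≤
      al * Real.sqrt (c * Real.sqrt R) := by
    refine (sum_le_sum fun i _ => h3i i).trans ?_
    refine (Real.sum_sqrt_mul_sqrt_le I' hYn hXn).trans ?_
    refine (mul_le_mul (Real.sqrt_le_sqrt hY) (Real.sqrt_le_sqrt h2) (Real.sqrt_nonneg _)
      (Real.sqrt_nonneg _)).trans (le_of_eq ?_)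
    have e : c * (al * Real.sqrt R) = al * (c * Real.sqrt R) := by ring
    rw [e, Real.sqrt_mul hal]
    have := Real.mul_self_sqrt hal
    linear_combination Real.sqrt (c * Real.sqrt R) * this
  -- together
  have h4 : ∀ i, av (fun z => e0 * y i z +
      2 * Real.sqrt (y i z * (c * (r i * Real.sqrt (κ i * y i z)))) +
      c * (r i * Real.sqrt (κ i * y i z))) =
      e0 * av (y i) + 2 * av (fun z => Real.sqrt (y i z * x i z)) + av (x i) := by
    intro i
    rw [← av_mul_left, ← av_mul_left]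
    exact av_add3 (fun z => e0 * y i z) (fun z => 2 * Real.sqrt (y i z * x i z)) (x i)
  rw [sum_congr rfl fun i _ => h4 i, sum_add_distrib, sum_add_distrib, ← mul_sum, ← mul_sum]
  have h5 := mul_le_mul_of_nonneg_left hY he0
  linarith

end Pool.Agent.H70.UN
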